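import Mathlib

/-!
# Project DR: polynomials, orders along a linear subspace
-/

set_option autoImplicit false

namespace Pool.Agent.Y945.DR

open MvPolynomial

universe u

variable {κ : Type u} [Field κ] {d : ℕ}

/-- weights as exponents of a new variable -/
noncomputable def Psi (w : Fin d → ℕ) :
    MvPolynomial (Fin d) κ →+* Polynomial (MvPolynomial (Fin d) κ) :=
  eval₂Hom (Polynomial.C.comp C) (fun i => Polynomial.C (X i) * Polynomial.X ^ w i)

/-- the weight -/
def wt (w : Fin d → ℕ) (m : Fin d →₀ ℕ) : ℕ := ∑ i, m i * w i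

theorem Psi_monomial (w : Fin d → ℕ) (m : Fin d →₀ ℕ) (c : κ) :
    Psi w (monomial m c) = Polynomial.monomial (wt w m) (monomial m c) := by
  rw [Psi, coe_eval₂Hom, eval₂_monomial, ← Polynomial.C_mul_X_pow_eq_monomial]
  have h1 : (m.prod fun i e => (Polynomial.C (X i : MvPolynomial (Fin d) κ) *
      Polynomial.X ^ w i) ^ e) =
      Polynomial.C (∏ i, (X i : MvPolynomial (Fin d) κ) ^ m i) * Polynomial.X ^ wt w m := by
    rw [Finsupp.prod_fintype _ _ (fun i => pow_zero _), wt, ← Finset.prod_pow_eq_pow_sum, map_prod,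
      ← Finset.prod_mul_distrib]
    refine Finset.prod_congr rfl fun i _ => ?_
    rw [mul_pow, map_pow, ← pow_mul, mul_comm (w i)]
  rw [h1, ← mul_assoc, RingHom.comp_apply, ← Polynomial.C_mul]
  congr 2
  rw [monomial_eq, Finsupp.prod_fintype _ _ (fun i => pow_zero _)]

theorem coeff_Psi (w : Fin d → ℕ) (f : MvPolynomial (Fin d) κ) (n : ℕ) (m : Fin d →₀ ℕ) :
    coeff m ((Psi w f).coeff n) = if wt w m = n then coeff m f else 0 := by
  classical
  induction f using MvPolynomial.induction_on' with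
  | monomial u a =>
    rw [Psi_monomial, Polynomial.coeff_monomial]
    by_cases h1 : wt w u = n
    · rw [if_pos h1]
      by_cases h2 : u = m
      · subst h2
        rw [if_pos h1]
      · rw [coeff_monomial, if_neg h2]
        split_ifs <;> rfl
    · rw [if_neg h1, coeff_zero, coeff_monomial]
      by_cases h2 : u = m
      · subst h2
        rw [if_neg h1]
      · rw [if_neg h2]
        split_ifs <;> rfl
  | add p q hp hq =>
    rw [map_add, Polynomial.coeff_add, coeff_add, hp, hq, coeff_add]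
    split_ifs <;> simp

theorem add_low (w : Fin d → ℕ) (f g : MvPolynomial (Fin d) κ) (a b : Fin d →₀ ℕ)
    (hf : coeff a f ≠ 0) (hg : coeff b g ≠ 0) :
    ∃ m, coeff m (f * g) ≠ 0 ∧ wt w m ≤ wt w a + wt w b := by
  have key : ∀ (f : MvPolynomial (Fin d) κ) (a : Fin d →₀ ℕ), coeff a f ≠ 0 →
      (Psi w f).coeff (wt w a) ≠ 0 := by
    intro f a hf h
    apply hf
    have h1 := coeff_Psi w f (wt w a) a
    rw [if_pos rfl, h, coeff_zero] at h1
    exact h1.symm
  have hf1 := key f a hf
  have hg1 := key g b hg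
  have hf0 : Psi w f ≠ 0 := fun h => hf1 (by rw [h, Polynomial.coeff_zero])
  have hg0 : Psi w g ≠ 0 := fun h => hg1 (by rw [h, Polynomial.coeff_zero])
  have h1 : (Psi w f).natTrailingDegree ≤ wt w a := Polynomial.natTrailingDegree_le_of_ne_zero hf1
  have h2 : (Psi w g).natTrailingDegree ≤ wt w b := Polynomial.natTrailingDegree_le_of_ne_zero hg1
  have h3 := Polynomial.natTrailingDegree_mul hf0 hg0
  have h4 : (Psi w f * Psi w g).coeff (Psi w f * Psi w g).natTrailingDegree ≠ 0 := by
    have := Polynomial.trailingCoeff_nonzero_iff_nonzero.2 (mul_ne_zero hf0 hg0)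
    exact this
  rw [← map_mul] at h4 h3
  obtain ⟨m, hm⟩ := ne_zero_iff.1 h4
  rw [coeff_Psi] at hm
  split_ifs at hm with h5
  · exact ⟨m, hm, by omega⟩
  · exact absurd rfl hm

/-- the degree in the variables of `U` -/
def dU (U : Finset (Fin d)) (m : Fin d →₀ ℕ) : ℕ := ∑ i ∈ U, m i

theorem coeff_of_mem (U : Finset (Fin d)) (k : ℕ) (f : MvPolynomial (Fin d) κ)
    (hf : f ∈ Ideal.span ((X : Fin d → MvPolynomial (Fin d) κ) '' U) ^ k) (m : Fin d →₀ ℕ)
    (hm : dU U m < k) : coeff m f = 0 := by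
  classical
  induction k generalizing f m with
  | zero => omega
  | succ k ih =>
    rw [pow_succ'] at hf
    refine Submodule.mul_induction_on hf ?_ ?_
    · intro p hp q hq
      rw [coeff_mul]
      refine Finset.sum_eq_zero fun x hx => ?_
      have hx1 : x.1 + x.2 = m := Finset.HasAntidiagonal.mem_antidiagonal.1 hx
      have h1 : dU U x.1 + dU U x.2 = dU U m := by
        rw [← hx1]
        unfold dU
        rw [← Finset.sum_add_distrib]
        rfl
      by_cases h2 : dU U x.2 < k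
      · rw [ih q hq x.2 h2, mul_zero]
      · have h3 : dU U x.1 = 0 := by omega
        have h4 : coeff x.1 p = 0 := by
          by_contra h5
          obtain ⟨i, hi, hi2⟩ := mem_ideal_span_X_image.1 hp x.1 (mem_support_iff.2 h5)
          exact hi2 (Finset.sum_eq_zero_iff.1 h3 i hi)
        rw [h4, zero_mul]
    · intro p q hp hq
      rw [coeff_add, hp, hq, add_zero]

theorem mono_mem (U : Finset (Fin d)) (k : ℕ) (m : Fin d →₀ ℕ) (c : κ) (hm : k ≤ dU U m) :
    monomial m c ∈ Ideal.span ((X : Fin d → MvPolynomial (Fin d) κ) '' U) ^ k := by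
  classical
  rw [monomial_eq, Finsupp.prod_fintype _ _ (fun i => pow_zero _), ← Finset.prod_mul_prod_compl U]
  refine Ideal.mul_mem_left _ _ (Ideal.mul_mem_right _ _ ?_)
  refine Ideal.pow_le_pow_right hm ?_
  unfold dU
  rw [← Finset.prod_pow_eq_pow_sum]
  exact Ideal.prod_mem_prod fun i hi =>
    Ideal.pow_mem_pow (Ideal.subset_span (Set.mem_image_of_mem _ (Finset.mem_coe.2 hi))) _

theorem low_exists (U : Finset (Fin d)) (k N : ℕ) (f : MvPolynomial (Fin d) κ)
    (hf : f ∈ Ideal.span ((X : Fin d → MvPolynomial (Fin d) κ) '' U) ^ k)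
    (hf2 : f ∉ Ideal.span ((X : Fin d → MvPolynomial (Fin d) κ) '' U) ^ (k + 1) ⊔
      idealOfVars (Fin d) κ ^ N) :
    ∃ m, coeff m f ≠ 0 ∧ dU U m = k ∧ m.degree < N := by
  classical
  by_contra hcon
  push Not at hcon
  apply hf2
  rw [← support_sum_monomial_coeff f]
  refine Ideal.sum_mem _ fun m hm => ?_
  have hm0 := mem_support_iff.1 hm
  have h1 : k ≤ dU U m := by
    by_contra h
    exact hm0 (coeff_of_mem U k f hf m (by omega))
  rcases Nat.lt_or_ge k (dU U m) with h2 | h2
  · exact Ideal.mem_sup_left (mono_mem U (k + 1) m _ h2)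
  · refine Ideal.mem_sup_right ?_
    rw [mem_pow_idealOfVars_iff']
    intro x hx
    rw [coeff_monomial, if_neg]
    rintro rfl
    have := hcon m hm0 (by omega)
    omega

theorem poly (U : Finset (Fin d)) (k l N1 N2 : ℕ) (f g : MvPolynomial (Fin d) κ)
    (hf : f ∈ Ideal.span ((X : Fin d → MvPolynomial (Fin d) κ) '' U) ^ k)
    (hf2 : f ∉ Ideal.span ((X : Fin d → MvPolynomial (Fin d) κ) '' U) ^ (k + 1) ⊔
      idealOfVars (Fin d) κ ^ N1)
    (hg : g ∈ Ideal.span ((X : Fin d → MvPolynomial (Fin d) κ) '' U) ^ l)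
    (hg2 : g ∉ Ideal.span ((X : Fin d → MvPolynomial (Fin d) κ) '' U) ^ (l + 1) ⊔
      idealOfVars (Fin d) κ ^ N2) :
    f * g ∉ Ideal.span ((X : Fin d → MvPolynomial (Fin d) κ) '' U) ^ (k + l + 1) ⊔
      idealOfVars (Fin d) κ ^ (N1 + N2) := by
  classical
  intro hfg
  obtain ⟨a, ha, ha1, ha2⟩ := low_exists U k N1 f hf hf2
  obtain ⟨b, hb, hb1, hb2⟩ := low_exists U l N2 g hg hg2
  have hw : ∀ m : Fin d →₀ ℕ, wt (fun i => if i ∈ U then N1 + N2 + 1 else 1) m =
      (N1 + N2) * dU U m + m.degree := by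
    intro m
    rw [Finsupp.degree_eq_sum]
    unfold wt dU
    have h1 : ∀ i, m i * (if i ∈ U then N1 + N2 + 1 else 1) =
        (if i ∈ U then (N1 + N2) * m i else 0) + m i := by
      intro i
      split_ifs <;> ring
    rw [Finset.sum_congr rfl fun i _ => h1 i, Finset.sum_add_distrib, Finset.mul_sum,
      Finset.sum_ite_mem, Finset.univ_inter]
  obtain ⟨m, hm, hle⟩ := add_low (fun i => if i ∈ U then N1 + N2 + 1 else 1) f g a b ha hb
  rw [hw, hw, hw, ha1, hb1] at hle
  have h0 : k + l ≤ dU U m := by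
    by_contra h
    apply hm
    refine coeff_of_mem U (k + l) (f * g) ?_ m (by omega)
    rw [pow_add]
    exact Ideal.mul_mem_mul hf hg
  have h1 : dU U m < k + l + 1 := by
    by_contra h
    push Not at h
    have h2 : (N1 + N2) * (k + l + 1) ≤ (N1 + N2) * dU U m := Nat.mul_le_mul_left _ h
    have h3 : (N1 + N2) * (k + l + 1) = (N1 + N2) * k + (N1 + N2) * l + (N1 + N2) := by ring
    omega
  have h2 : dU U m = k + l := by omega
  have h3 : m.degree < N1 + N2 := by
    rw [h2] at hle
    have h4 : (N1 + N2) * (k + l) = (N1 + N2) * k + (N1 + N2) * l := by ring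
    omega
  obtain ⟨p, hp, q, hq, hpq⟩ := Submodule.mem_sup.1 hfg
  apply hm
  rw [← hpq, coeff_add, coeff_of_mem U _ p hp m h1, (mem_pow_idealOfVars_iff' _ _).1 hq m h3,
    add_zero]

end Pool.Agent.Y945.DR
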