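import Pool.Agent.Y808.DR.Stm
import Pool.Agent.Y808.DR.Stm3
import Pool.Agent.Y945.DR.Poly

/-!
# Project DR (helper808, MP_f322fd_al): ORD (helper945)

The lemmas `smooth`, `coeff_field`, `surj`, `prod_mem`, `compare` and the first part of `phi` are
copied from helper41's proof of KL (`Pool/Agent/Y41/DR/KL.lean`).
-/

set_option autoImplicit false

namespace Pool.Agent.Y945.DR

open IsLocalRing MvPolynomial Pool.Agent.Y808.DR

universe u

/-- fields of characteristic zero are formally smooth -/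
theorem smooth (L : Type u) [Field L] [Algebra ℚ L] : Algebra.FormallySmooth ℚ L := by
  obtain ⟨s, hs⟩ := exists_isTranscendenceBasis ℚ L
  have := hs.isAlgebraic_field
  exact .of_algebraicIndependent_of_isSeparable hs.1

/-- coefficient field of an Artinian quotient -/
theorem coeff_field (B : Type u) [CommRing B] [Algebra ℚ B] [IsLocalRing B] (N : ℕ) (hN : N ≠ 0) :
    ∃ s : ResidueField B →+* B ⧸ maximalIdeal B ^ N, ∀ b : B,
      Ideal.Quotient.mk (maximalIdeal B ^ N) b - s (residue B b) ∈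
        (maximalIdeal B).map (Ideal.Quotient.mk (maximalIdeal B ^ N)) := by
  have hle : maximalIdeal B ^ N ≤ maximalIdeal B := Ideal.pow_le_self hN
  let g : (B ⧸ maximalIdeal B ^ N) →ₐ[ℚ] ResidueField B :=
    Ideal.Quotient.liftₐ (maximalIdeal B ^ N) (IsScalarTower.toAlgHom ℚ B (ResidueField B))
      (fun a ha => (residue_eq_zero_iff a).mpr (hle ha))
  have hg : ∀ b : B, g (Ideal.Quotient.mk (maximalIdeal B ^ N) b) = residue B b := fun b => rfl
  have hsurj : Function.Surjective g := by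
    intro x
    obtain ⟨b, rfl⟩ := residue_surjective x
    exact ⟨_, hg b⟩
  have hker : ∀ r, g r = 0 → r ∈ (maximalIdeal B).map (Ideal.Quotient.mk (maximalIdeal B ^ N)) := by
    intro r hr
    obtain ⟨b, rfl⟩ := Ideal.Quotient.mk_surjective r
    rw [hg, residue_eq_zero_iff] at hr
    exact Ideal.mem_map_of_mem _ hr
  have hnil : IsNilpotent (RingHom.ker g) := by
    refine ⟨N, ?_⟩
    rw [Ideal.zero_eq_bot, eq_bot_iff]
    have h1 : RingHom.ker g ≤ (maximalIdeal B).map (Ideal.Quotient.mk (maximalIdeal B ^ N)) :=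
      fun r hr => hker r hr
    refine (Ideal.pow_right_mono h1 N).trans ?_
    rw [← Ideal.map_pow, Ideal.map_quotient_self]
  have := smooth (ResidueField B)
  let s := Algebra.FormallySmooth.liftOfSurjective (AlgHom.id ℚ (ResidueField B)) g hsurj hnil
  have hs : ∀ x, g (s x) = x := fun x =>
    Algebra.FormallySmooth.liftOfSurjective_apply (AlgHom.id ℚ (ResidueField B)) g hsurj hnil x
  refine ⟨s, fun b => hker _ ?_⟩
  rw [map_sub, hg]
  show residue B b - g (s (residue B b)) = 0
  rw [hs, sub_self]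

/-- surjectivity of the evaluation -/
theorem surj {R κ : Type u} [CommRing R] [CommRing κ] {d : ℕ} (s : κ →+* R) (y : Fin d → R)
    (hs : ∀ r : R, ∃ c : κ, r - s c ∈ Ideal.span (Set.range y)) (j : ℕ) (r : R) :
    ∃ f : MvPolynomial (Fin d) κ, r - eval₂Hom s y f ∈ Ideal.span (Set.range y) ^ j := by
  induction j generalizing r with
  | zero => exact ⟨0, by simp⟩
  | succ j ih =>
    obtain ⟨c, hc⟩ := hs r
    obtain ⟨a, ha⟩ := Ideal.mem_span_range_iff_exists_fun.mp hc
    choose f hf using fun i => ih (a i)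
    refine ⟨C c + ∑ i, f i * X i, ?_⟩
    have h1 : r - eval₂Hom s y (C c + ∑ i, f i * X i)
        = ∑ i, (a i - eval₂Hom s y (f i)) * y i := by
      simp only [map_add, map_sum, map_mul, coe_eval₂Hom, eval₂_C, eval₂_X]
      simp only [sub_mul, Finset.sum_sub_distrib, ha]
      ring
    rw [h1, pow_succ]
    refine Ideal.sum_mem _ fun i _ => Ideal.mul_mem_mul (hf i) ?_
    exact Ideal.subset_span ⟨i, rfl⟩

theorem prod_mem {R : Type u} [CommRing R] {d : ℕ} (y : Fin d → R) (n : Ideal R)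
    (hy : ∀ i, y i ∈ n) (x : Fin d →₀ ℕ) : ∏ i, y i ^ x i ∈ n ^ x.degree := by
  rw [Finsupp.degree_eq_sum, ← Finset.prod_pow_eq_pow_sum]
  exact Ideal.prod_mem_prod fun i _ => Ideal.pow_mem_pow (hy i) _

/-- comparison of the two evaluations -/
theorem compare {R κ B : Type u} [CommRing R] [CommRing κ] [CommRing B] {d : ℕ} (s : κ →+* R)
    (mk : B →+* R) (res : B →+* κ) (y : Fin d → R) (n : Ideal R) (hy : ∀ i, y i ∈ n)
    (hs : ∀ b, mk b - s (res b) ∈ n) (k : ℕ) (G : MvPolynomial (Fin d) B) (hG : G.IsHomogeneous k) :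
    eval₂ mk y G - eval₂Hom s y (map res G) ∈ n ^ (k + 1) := by
  rw [coe_eval₂Hom, eval₂_map, eval₂_eq', eval₂_eq', ← Finset.sum_sub_distrib]
  refine Ideal.sum_mem _ fun x hx => ?_
  rw [← sub_mul, add_comm k 1, pow_add, pow_one]
  refine Ideal.mul_mem_mul (hs _) ?_
  have h1 : x.degree = k := by
    have h2 := hG (mem_support_iff.mp hx)
    rw [Finsupp.degree_eq_weight_one]
    exact h2
  rw [← h1]
  exact prod_mem y n hy x

/-- the presentation of the Artinian quotients -/
theorem phi (hQR : S_QR.{u}) (B : Type u) [CommRing B] [Algebra ℚ B] [IsRegularLocalRing B]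
    (d : ℕ) (z : Fin d → B) (hd : ringKrullDim B = d)
    (hz : Ideal.span (Set.range z) = maximalIdeal B) (N : ℕ) (hN0 : N ≠ 0) :
    ∃ Φ : MvPolynomial (Fin d) (ResidueField B) →+* B ⧸ maximalIdeal B ^ N,
      Function.Surjective Φ ∧
      (∀ i, Φ (X i) = Ideal.Quotient.mk (maximalIdeal B ^ N) (z i)) ∧
      ∀ f, Φ f = 0 → f ∈ idealOfVars (Fin d) (ResidueField B) ^ N := by
  obtain ⟨s, hs⟩ := coeff_field B N hN0
  set mk : B →+* B ⧸ maximalIdeal B ^ N := Ideal.Quotient.mk (maximalIdeal B ^ N) with hmk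
  set 𝔫 : Ideal (B ⧸ maximalIdeal B ^ N) := (maximalIdeal B).map mk with h𝔫
  let y : Fin d → B ⧸ maximalIdeal B ^ N := fun i => mk (z i)
  have hy𝔫 : Ideal.span (Set.range y) = 𝔫 := by
    have h1 : (Ideal.span (Set.range z)).map mk = 𝔫 := by rw [hz]
    rw [Ideal.map_span, ← Set.range_comp] at h1
    exact h1
  have hy : ∀ i, y i ∈ 𝔫 := fun i => by
    rw [← hy𝔫]
    exact Ideal.subset_span ⟨i, rfl⟩
  set Φ := eval₂Hom s y with hΦ
  have hpow : ∀ k, k ≤ N → ∀ b : B, mk b ∈ 𝔫 ^ k → b ∈ maximalIdeal B ^ k := by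
    intro k hk b hb
    rw [h𝔫, ← Ideal.map_pow] at hb
    exact (Ideal.mem_quotient_iff_mem (Ideal.pow_le_pow_right hk)).mp hb
  have h𝔫N : 𝔫 ^ N = ⊥ := by
    rw [h𝔫, ← Ideal.map_pow, Ideal.map_quotient_self]
  -- surjectivity
  have hsurj : Function.Surjective Φ := by
    intro r
    obtain ⟨f, hf⟩ := surj s y (fun r => by
      obtain ⟨b, rfl⟩ := Ideal.Quotient.mk_surjective r
      exact ⟨residue B b, by rw [hy𝔫]; exact hs b⟩) N r
    rw [hy𝔫, h𝔫N, Ideal.mem_bot, sub_eq_zero] at hf
    exact ⟨f, hf.symm⟩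
  have hXle : idealOfVars (Fin d) (ResidueField B) ≤ 𝔫.comap Φ := by
    rw [idealOfVars, Ideal.span_le]
    rintro _ ⟨i, rfl⟩
    rw [SetLike.mem_coe, Ideal.mem_comap, hΦ, coe_eval₂Hom, eval₂_X]
    exact hy i
  have hXpow : ∀ k, ∀ f ∈ idealOfVars (Fin d) (ResidueField B) ^ k, Φ f ∈ 𝔫 ^ k := by
    intro k f hf
    have h1 : Φ f ∈ (idealOfVars (Fin d) (ResidueField B) ^ k).map Φ := Ideal.mem_map_of_mem _ hf
    rw [Ideal.map_pow] at h1
    exact Ideal.pow_right_mono (Ideal.map_le_iff_le_comap.mpr hXle) k h1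
  -- the kernel
  have hkey : ∀ k, k ≤ N → ∀ f, Φ f ∈ 𝔫 ^ k → f ∈ idealOfVars (Fin d) (ResidueField B) ^ k := by
    intro k
    induction k with
    | zero => intro _ f _; simp
    | succ k ih =>
      intro hk f hf
      have h1 := ih (by omega) f (Ideal.pow_le_pow_right (Nat.le_succ k) hf)
      rw [mem_pow_idealOfVars_iff'] at h1 ⊢
      obtain ⟨G0, hG0⟩ := map_surjective (residue B) residue_surjective f
      set G := homogeneousComponent k G0 with hG
      have hGh : G.IsHomogeneous k := homogeneousComponent_isHomogeneous k G0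
      have hGf : map (residue B) G = homogeneousComponent k f := by
        ext x
        rw [coeff_map, hG, coeff_homogeneousComponent, coeff_homogeneousComponent, ← hG0,
          coeff_map]
        split_ifs <;> simp
      have h2 : f - homogeneousComponent k f ∈ idealOfVars (Fin d) (ResidueField B) ^ (k + 1) := by
        rw [mem_pow_idealOfVars_iff']
        intro x hx
        rw [coeff_sub, coeff_homogeneousComponent]
        by_cases hxk : x.degree = k
        · rw [if_pos hxk, sub_self]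
        · rw [if_neg hxk, sub_zero]
          exact h1 x (by omega)
      have h3 := hXpow _ _ h2
      rw [map_sub] at h3
      have h4 : Φ (homogeneousComponent k f) ∈ 𝔫 ^ (k + 1) := by
        have := Ideal.sub_mem _ hf h3
        rwa [sub_sub_cancel] at this
      have h5 := compare s mk (residue B) y 𝔫 hy hs k G hGh
      rw [hGf] at h5
      have h6 : eval₂ mk y G ∈ 𝔫 ^ (k + 1) := by
        have := Ideal.add_mem _ h5 h4
        rwa [sub_add_cancel] at this
      have h7 : eval₂ mk y G = mk (eval z G) := by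
        have h := eval₂_comp_left mk (RingHom.id B) z G
        rw [eval₂_id, RingHom.comp_id] at h
        exact h.symm
      rw [h7] at h6
      have h8 := hQR B d z hd hz k G hGh (hpow (k + 1) hk _ h6)
      intro x hx
      by_cases hxk : x.degree = k
      · have h9 : coeff x (map (residue B) G) = 0 := by
          rw [coeff_map, residue_eq_zero_iff]
          exact h8 x
        rw [hGf, coeff_homogeneousComponent, if_pos hxk] at h9
        exact h9
      · exact h1 x (by omega)
  refine ⟨Φ, hsurj, fun i => ?_, fun f hf => hkey N le_rfl f ?_⟩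
  · rw [hΦ, coe_eval₂Hom, eval₂_X]
  · rw [hf]
    exact Ideal.zero_mem _

/-- Krull's intersection theorem for a quotient -/
theorem krull (B : Type u) [CommRing B] [IsLocalRing B] [IsNoetherianRing B] (I : Ideal B) (x : B)
    (hx : x ∉ I) : ∃ N : ℕ, x ∉ I ⊔ maximalIdeal B ^ N := by
  by_contra hcon
  push Not at hcon
  have h1 := Ideal.iInf_pow_smul_eq_bot_of_isLocalRing (M := B ⧸ I) (maximalIdeal B)
    (maximalIdeal.isMaximal B).ne_top
  apply hx
  rw [← Ideal.Quotient.eq_zero_iff_mem]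
  have h2 : Ideal.Quotient.mk I x ∈ (⨅ i : ℕ, maximalIdeal B ^ i • ⊤ : Submodule B (B ⧸ I)) := by
    rw [Submodule.mem_iInf]
    intro i
    obtain ⟨a, ha, b, hb, hab⟩ := Submodule.mem_sup.1 (hcon i)
    have h3 : Ideal.Quotient.mk I x = b • (1 : B ⧸ I) := by
      rw [← hab, map_add, Ideal.Quotient.eq_zero_iff_mem.2 ha, zero_add, Algebra.smul_def, mul_one]
      rfl
    rw [h3]
    exact Submodule.smul_mem_smul hb Submodule.mem_top
  rw [h1] at h2
  exact h2

theorem t_ORD : S_QR.{u} → S_ORD.{u} := by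
  intro hQR B _ _ _ d z U hd hz k l x y hx hx2 hy hy2 hxy
  obtain ⟨N1, hN1⟩ := krull B _ x hx2
  obtain ⟨N2, hN2⟩ := krull B _ y hy2
  have hN10 : N1 ≠ 0 := by
    rintro rfl
    apply hN1
    rw [pow_zero, Ideal.one_eq_top, sup_top_eq]
    exact Submodule.mem_top
  obtain ⟨Φ, hsurj, hX, hker⟩ := phi hQR B d z hd hz (N1 + N2) (by omega)
  set mk : B →+* B ⧸ maximalIdeal B ^ (N1 + N2) :=
    Ideal.Quotient.mk (maximalIdeal B ^ (N1 + N2)) with hmk
  have hmap : ∀ j : ℕ, (Ideal.span ((X : Fin d → MvPolynomial (Fin d) (ResidueField B)) '' U) ^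
      j).map Φ = (Ideal.span (z '' U) ^ j).map mk := by
    intro j
    rw [Ideal.map_pow, Ideal.map_pow, Ideal.map_span, Ideal.map_span, Set.image_image,
      Set.image_image]
    simp only [hX]
  have hmax : ∀ j : ℕ, (idealOfVars (Fin d) (ResidueField B) ^ j).map Φ =
      (maximalIdeal B ^ j).map mk := by
    intro j
    have h1 : (Ideal.span (Set.range z)).map mk = (maximalIdeal B).map mk := by rw [hz]
    rw [Ideal.map_pow, Ideal.map_pow, ← h1, idealOfVars, Ideal.map_span, Ideal.map_span,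
      ← Set.range_comp, ← Set.range_comp]
    congr 3
    funext i
    exact hX i
  have hlift : ∀ (j : ℕ) (b : B), b ∈ Ideal.span (z '' U) ^ j →
      ∃ f ∈ Ideal.span ((X : Fin d → MvPolynomial (Fin d) (ResidueField B)) '' U) ^ j,
        Φ f = mk b := by
    intro j b hb
    have h1 : mk b ∈ (Ideal.span (z '' U) ^ j).map mk := Ideal.mem_map_of_mem _ hb
    rw [← hmap, Ideal.mem_map_iff_of_surjective Φ hsurj] at h1
    exact h1
  have hnot : ∀ (j M : ℕ) (b : B) (f : MvPolynomial (Fin d) (ResidueField B)), M ≤ N1 + N2 →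
      b ∉ Ideal.span (z '' U) ^ j ⊔ maximalIdeal B ^ M → Φ f = mk b →
      f ∉ Ideal.span ((X : Fin d → MvPolynomial (Fin d) (ResidueField B)) '' U) ^ j ⊔
        idealOfVars (Fin d) (ResidueField B) ^ M := by
    intro j M b f hM hb hf hcon
    apply hb
    have h1 := Ideal.mem_map_of_mem Φ hcon
    rw [Ideal.map_sup, hmap, hmax, ← Ideal.map_sup, hf] at h1
    exact (Ideal.mem_quotient_iff_mem ((Ideal.pow_le_pow_right hM).trans le_sup_right)).mp h1
  obtain ⟨f, hf, hfx⟩ := hlift k x hx
  obtain ⟨g, hg, hgy⟩ := hlift l y hy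
  obtain ⟨h, hh, hhxy⟩ := hlift (k + l + 1) (x * y) hxy
  refine poly U k l N1 N2 f g hf (hnot (k + 1) N1 x f (by omega) hN1 hfx) hg
    (hnot (l + 1) N2 y g (by omega) hN2 hgy) ?_
  have h1 : f * g - h ∈ idealOfVars (Fin d) (ResidueField B) ^ (N1 + N2) := by
    apply hker
    rw [map_sub, map_mul, hfx, hgy, hhxy, map_mul, sub_self]
  have h2 := Submodule.add_mem_sup hh h1
  rwa [add_sub_cancel] at h2

end Pool.Agent.Y945.DR
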